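import Pool.Agent.J4H42.EL.Fld

/-! Project EL (helper46), job DESC: descent to a subfield. -/

set_option autoImplicit false

open scoped TensorProduct

universe u

namespace Pool.Agent.J4H42.EL

open Pool.Agent.Helper226 Pool.Agent.J4H46.EL

section

variable {K Ω B : Type u} [Field K] [Field Ω] [Algebra K Ω] [CommRing B] [Algebra K B]
  (L : Type u) [Field L] [Algebra K L] [Algebra L Ω] [IsScalarTower K L Ω]

/-- the map `L ⊗ B → Ω ⊗ B` -/
noncomputable def th : (L ⊗[K] B) →ₐ[L] (Ω ⊗[K] B) :=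
  { (Algebra.TensorProduct.map (IsScalarTower.toAlgHom K L Ω) (AlgHom.id K B)).toRingHom with
    commutes' := fun l => by
      show Algebra.TensorProduct.map (IsScalarTower.toAlgHom K L Ω) (AlgHom.id K B)
        (algebraMap L (L ⊗[K] B) l) = _
      rw [Algebra.TensorProduct.algebraMap_apply, Algebra.TensorProduct.map_tmul, map_one]
      rfl }

theorem th_tmul (l : L) (b : B) : th L (l ⊗ₜ b) = (algebraMap L Ω l) ⊗ₜ[K] b := rfl

/-- the elements `1 ⊗ b` span the quotient over `Ω` -/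
theorem span_one (J : Ideal (Ω ⊗[K] B)) :
    Submodule.span Ω (Set.range fun b : B => Ideal.Quotient.mk J ((1 : Ω) ⊗ₜ[K] b)) = ⊤ := by
  rw [eq_top_iff]
  rintro x -
  obtain ⟨t, rfl⟩ := Ideal.Quotient.mk_surjective x
  induction t using TensorProduct.induction_on with
  | zero =>
    rw [map_zero]
    exact Submodule.zero_mem _
  | tmul w b =>
    have h : Ideal.Quotient.mk J (w ⊗ₜ[K] b) = w • Ideal.Quotient.mk J ((1 : Ω) ⊗ₜ[K] b) := by
      have h1 : w ⊗ₜ[K] b = w • ((1 : Ω) ⊗ₜ[K] b) := by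
        rw [TensorProduct.smul_tmul', smul_eq_mul, mul_one]
      rw [h1]
      rfl
    rw [h]
    exact Submodule.smul_mem _ _ (Submodule.subset_span ⟨b, rfl⟩)
  | add x y hx hy =>
    rw [map_add]
    exact Submodule.add_mem _ hx hy

/-- descent -/
theorem desc_gen {r : ℕ} {J : Ideal (Ω ⊗[K] B)} (hJ : J ∈ HilbFamily K B r Ω)
    (v : Fin r → (Ω ⊗[K] B) ⧸ J) (hv : ∀ b : B,
      Ideal.Quotient.mk J ((1 : Ω) ⊗ₜ[K] b) ∈ Submodule.span L (Set.range v)) :
    ∃ J' : Ideal (L ⊗[K] B), J' ∈ HilbFamily K B r L ∧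
      bcI B (IsScalarTower.toAlgHom K L Ω) J' = J := by
  obtain ⟨hfin, hrk⟩ := hf_iff.1 hJ
  obtain ⟨J', hJ'⟩ : ∃ J' : Ideal (L ⊗[K] B), J' = J.comap (th (B := B) L) := ⟨_, rfl⟩
  have hJle : J' ≤ J.comap (th (B := B) L) := hJ'.le
  -- the injective map
  let ι : ((L ⊗[K] B) ⧸ J') →ₐ[L] ((Ω ⊗[K] B) ⧸ J) := Ideal.quotientMapₐ J (th (B := B) L) hJle
  have hι : Function.Injective ι := by
    intro x y hxy
    obtain ⟨x, rfl⟩ := Ideal.Quotient.mk_surjective x
    obtain ⟨y, rfl⟩ := Ideal.Quotient.mk_surjective y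
    rw [Ideal.Quotient.eq, hJ', Ideal.mem_comap, map_sub]
    exact (Ideal.Quotient.eq (I := J)).1 hxy
  -- the image is in the span of `v`
  have hrange : ∀ x, ι x ∈ Submodule.span L (Set.range v) := by
    intro x
    obtain ⟨t, rfl⟩ := Ideal.Quotient.mk_surjective x
    have h0 : ι (Ideal.Quotient.mk J' t) = Ideal.Quotient.mk J (th L t) := rfl
    rw [h0]
    induction t using TensorProduct.induction_on with
    | zero =>
      rw [map_zero, map_zero]
      exact Submodule.zero_mem _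
    | tmul l b =>
      have h : Ideal.Quotient.mk J (th L (l ⊗ₜ[K] b)) =
          l • Ideal.Quotient.mk J ((1 : Ω) ⊗ₜ[K] b) := by
        have h1 : th L (l ⊗ₜ[K] b) = l • ((1 : Ω) ⊗ₜ[K] b) := by
          rw [th_tmul, TensorProduct.smul_tmul']
          congr 1
          rw [Algebra.smul_def, mul_one]
        rw [h1]
        rfl
      rw [h]
      exact Submodule.smul_mem _ _ (hv b)
    | add x y hx hy =>
      rw [map_add, map_add]
      exact Submodule.add_mem _ (hx rfl) (hy rfl)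
  let ι' : ((L ⊗[K] B) ⧸ J') →ₗ[L] Submodule.span L (Set.range v) :=
    ι.toLinearMap.codRestrict _ hrange
  have hι' : Function.Injective ι' := fun x y h => hι (congrArg Subtype.val h)
  haveI : Module.Finite L (Submodule.span L (Set.range v)) :=
    Module.Finite.span_of_finite L (Set.finite_range v)
  have hfin' : Module.Finite L ((L ⊗[K] B) ⧸ J') := Module.Finite.of_injective ι' hι'
  have hle : Module.finrank L ((L ⊗[K] B) ⧸ J') ≤ r := by
    refine (LinearMap.finrank_le_finrank_of_injective hι').trans ?_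
    refine (finrank_range_le_card v).trans ?_
    rw [Fintype.card_fin]
  -- the base change
  obtain ⟨J₂, hJ₂⟩ : ∃ J₂ : Ideal (Ω ⊗[K] B), J₂ = bcI B (IsScalarTower.toAlgHom K L Ω) J' := ⟨_, rfl⟩
  have hJ₂le : J₂ ≤ J := by
    rw [hJ₂]
    unfold bcI
    rw [Ideal.map_le_iff_le_comap, hJ']
    exact le_refl _
  have hJ'le2 : J' ≤ J₂.comap (th (B := B) L) := by
    rw [hJ₂]
    exact Ideal.le_comap_map
  let κ : ((L ⊗[K] B) ⧸ J') →ₐ[L] ((Ω ⊗[K] B) ⧸ J₂) :=
    Ideal.quotientMapₐ J₂ (th (B := B) L) hJ'le2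
  obtain ⟨b⟩ : Nonempty (Module.Basis (Fin (Module.finrank L ((L ⊗[K] B) ⧸ J'))) L
      ((L ⊗[K] B) ⧸ J')) := ⟨Module.finBasis L _⟩
  have hspan : Submodule.span Ω (Set.range fun i => κ (b i)) = ⊤ := by
    rw [eq_top_iff, ← span_one J₂, Submodule.span_le]
    rintro _ ⟨c, rfl⟩
    have h1 : Ideal.Quotient.mk J₂ ((1 : Ω) ⊗ₜ[K] c) =
        κ (Ideal.Quotient.mk J' ((1 : L) ⊗ₜ[K] c)) := by
      show _ = Ideal.Quotient.mk J₂ (th L ((1 : L) ⊗ₜ[K] c))
      rw [th_tmul, map_one]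
    have h2 := b.sum_repr (Ideal.Quotient.mk J' ((1 : L) ⊗ₜ[K] c))
    show Ideal.Quotient.mk J₂ ((1 : Ω) ⊗ₜ[K] c) ∈ Submodule.span Ω (Set.range fun i => κ (b i))
    rw [h1, ← h2, map_sum]
    refine Submodule.sum_mem _ fun i _ => ?_
    rw [map_smul]
    have h3 : (b.repr (Ideal.Quotient.mk J' ((1 : L) ⊗ₜ[K] c)) i) • κ (b i) =
        (algebraMap L Ω (b.repr (Ideal.Quotient.mk J' ((1 : L) ⊗ₜ[K] c)) i)) • κ (b i) :=
      (algebraMap_smul Ω _ _).symm
    rw [h3]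
    exact Submodule.smul_mem _ _ (Submodule.subset_span ⟨i, rfl⟩)
  have hfin₂ : Module.Finite Ω ((Ω ⊗[K] B) ⧸ J₂) :=
    ⟨by
      rw [← hspan]
      exact Submodule.fg_span (Set.finite_range _)⟩
  have hle₂ : Module.finrank Ω ((Ω ⊗[K] B) ⧸ J₂) ≤ Module.finrank L ((L ⊗[K] B) ⧸ J') := by
    have h1 := finrank_range_le_card (R := Ω) (fun i => κ (b i))
    rw [Set.finrank, hspan, finrank_top, Fintype.card_fin] at h1
    exact h1
  -- the surjection
  let σ : ((Ω ⊗[K] B) ⧸ J₂) →ₐ[Ω] ((Ω ⊗[K] B) ⧸ J) := Ideal.Quotient.factorₐ Ω hJ₂le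
  have hσ : Function.Surjective σ := Ideal.Quotient.factor_surjective hJ₂le
  have h5 : Module.finrank Ω ((Ω ⊗[K] B) ⧸ J) ≤ Module.finrank Ω ((Ω ⊗[K] B) ⧸ J₂) :=
    LinearMap.finrank_le_finrank_of_surjective (f := σ.toLinearMap) hσ
  have hσi : Function.Injective σ := by
    have h6 := (LinearMap.injective_iff_surjective_of_finrank_eq_finrank (f := σ.toLinearMap)
      (by omega)).2 hσ
    exact h6
  refine ⟨J', hf_iff.2 ⟨hfin', by omega⟩, ?_⟩
  rw [← hJ₂]
  refine le_antisymm hJ₂le fun x hx => ?_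
  have h7 : σ (Ideal.Quotient.mk J₂ x) = σ 0 := by
    rw [map_zero]
    exact Ideal.Quotient.eq_zero_iff_mem.2 hx
  exact Ideal.Quotient.eq_zero_iff_mem.1 (hσi h7)

end

/-- JOB DESC -/
theorem t_DESC : S_DESC.{u} := by
  intro K Ω B _ _ _ _ _ L r J hJ hsp
  obtain ⟨v, hv⟩ := hsp
  exact desc_gen L hJ v hv

end Pool.Agent.J4H42.EL
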