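import Pool.Agent.J4H46.EL.Stm

/-! Project EL (helper46): families over a field. -/

set_option autoImplicit false

open scoped TensorProduct

universe u

namespace Pool.Agent.J4H42.EL

open Pool.Agent.Helper226 Pool.Agent.J4H46.EL

variable {K Ω B : Type u} [Field K] [Field Ω] [Algebra K Ω] [CommRing B] [Algebra K B]

/-- families over a field -/
theorem hf_iff {r : ℕ} {J : Ideal (Ω ⊗[K] B)} : J ∈ HilbFamily K B r Ω ↔
    Module.Finite Ω ((Ω ⊗[K] B) ⧸ J) ∧ Module.finrank Ω ((Ω ⊗[K] B) ⧸ J) = r := by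
  unfold HilbFamily
  rw [Set.mem_ofPred_eq]
  constructor
  · rintro ⟨h1, h2, h3⟩
    refine ⟨h1, ?_⟩
    obtain ⟨p⟩ : Nonempty (PrimeSpectrum Ω) := inferInstance
    have h4 := congrFun (Module.rankAtStalk_eq_finrank_of_free (R := Ω)
      (M := (Ω ⊗[K] B) ⧸ J)) p
    rw [h3 p] at h4
    exact h4.symm
  · rintro ⟨h1, h2⟩
    refine ⟨h1, inferInstance, fun p => ?_⟩
    have h4 := congrFun (Module.rankAtStalk_eq_finrank_of_free (R := Ω)
      (M := (Ω ⊗[K] B) ⧸ J)) p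
    rw [h4, ← h2]
    rfl

end Pool.Agent.J4H42.EL
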