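import Pool.Agent.J4H42.EL.Fld

/-! Project EL (helper46), job NL: non-local finite algebras are products. -/

set_option autoImplicit false

open scoped TensorProduct
open Filter

universe u

namespace Pool.Agent.J4H42.EL

open Pool.Agent.Helper226 Pool.Agent.J4H46.EL

section

variable {Ω Q : Type u} [Field Ω] [CommRing Q] [Algebra Ω Q]

/-- Fitting decomposition -/
theorem fitting [Module.Finite Ω Q] (a : Q) (ha : ¬ IsUnit a) (ha' : ¬ IsUnit (1 - a)) :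
    ∃ I₁ I₂ : Ideal Q, I₁ ⊓ I₂ = ⊥ ∧ I₁ ≠ ⊤ ∧ I₂ ≠ ⊤ ∧
      Module.finrank Ω (Q ⧸ I₁) + Module.finrank Ω (Q ⧸ I₂) = Module.finrank Ω Q := by
  obtain ⟨f, hf⟩ : ∃ f : Module.End Ω Q, f = LinearMap.mulLeft Ω a := ⟨_, rfl⟩
  obtain ⟨n, hn, hc⟩ := ((eventually_ge_atTop 1).and f.eventually_isCompl_ker_pow_range_pow).exists
  have hfn : ∀ x, (f ^ n) x = a ^ n * x := by
    intro x
    rw [hf, LinearMap.pow_mulLeft]
    rfl
  obtain ⟨I₁, hI₁⟩ : ∃ I₁ : Ideal Q, I₁ = Ideal.span {a ^ n} := ⟨_, rfl⟩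
  obtain ⟨I₂, hI₂⟩ : ∃ I₂ : Ideal Q, I₂ = LinearMap.ker (LinearMap.mulLeft Q (a ^ n)) := ⟨_, rfl⟩
  have e₁ : I₁.restrictScalars Ω = LinearMap.range (f ^ n) := by
    ext x
    rw [Submodule.restrictScalars_mem, hI₁, Ideal.mem_span_singleton', LinearMap.mem_range]
    constructor
    · rintro ⟨y, rfl⟩
      exact ⟨y, by rw [hfn, mul_comm]⟩
    · rintro ⟨y, rfl⟩
      exact ⟨y, by rw [hfn, mul_comm]⟩
  have e₂ : I₂.restrictScalars Ω = LinearMap.ker (f ^ n) := by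
    ext x
    rw [Submodule.restrictScalars_mem, hI₂, LinearMap.mem_ker, LinearMap.mem_ker, hfn]
    rfl
  refine ⟨I₁, I₂, ?_, ?_, ?_, ?_⟩
  · rw [eq_bot_iff]
    intro x hx
    have h1 : x ∈ LinearMap.range (f ^ n) := by
      rw [← e₁]
      exact hx.1
    have h2 : x ∈ LinearMap.ker (f ^ n) := by
      rw [← e₂]
      exact hx.2
    exact (Submodule.mem_bot _).2 ((Submodule.mem_bot Ω).1
      ((hc.disjoint.le_bot) ⟨h2, h1⟩))
  · rw [hI₁]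
    intro h
    rw [Ideal.span_singleton_eq_top] at h
    exact ha (isUnit_pow_iff (by omega) |>.1 h)
  · intro h
    have h1 : (1 : Q) ∈ I₂ := by rw [h]; trivial
    rw [hI₂, LinearMap.mem_ker, LinearMap.mulLeft_apply, mul_one] at h1
    exact ha' (IsNilpotent.isUnit_one_sub ⟨n, h1⟩)
  · have k₁ := (Submodule.Quotient.restrictScalarsEquiv Ω I₁).finrank_eq
    have k₂ := (Submodule.Quotient.restrictScalarsEquiv Ω I₂).finrank_eq
    have k₃ := Submodule.finrank_quotient_add_finrank (I₁.restrictScalars Ω)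
    have k₄ := Submodule.finrank_quotient_add_finrank (I₂.restrictScalars Ω)
    have k₅ := Submodule.finrank_add_eq_of_isCompl hc
    rw [← e₁, ← e₂] at k₅
    omega

end

/-- JOB NL -/
theorem t_NL : S_NL.{u} := by
  intro K Ω B _ _ _ _ _ r J hJ hr hloc
  obtain ⟨hfin, hrk⟩ := hf_iff.1 hJ
  haveI : Nontrivial ((Ω ⊗[K] B) ⧸ J) := by
    apply Module.nontrivial_of_finrank_pos (R := Ω)
    omega
  have h1 : ∃ a : (Ω ⊗[K] B) ⧸ J, ¬ IsUnit a ∧ ¬ IsUnit (1 - a) := by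
    by_contra hcon
    push Not at hcon
    apply hloc
    apply IsLocalRing.of_isUnit_or_isUnit_one_sub_self
    intro a
    by_cases h : IsUnit a
    · exact Or.inl h
    · exact Or.inr (hcon a h)
  obtain ⟨a, ha, ha'⟩ := h1
  obtain ⟨I₁, I₂, h2, h3, h4, h5⟩ := fitting (Ω := Ω) a ha ha'
  obtain ⟨J₁, hJ₁⟩ : ∃ J₁ : Ideal (Ω ⊗[K] B), J₁ = I₁.comap (Ideal.Quotient.mk J) := ⟨_, rfl⟩
  obtain ⟨J₂, hJ₂⟩ : ∃ J₂ : Ideal (Ω ⊗[K] B), J₂ = I₂.comap (Ideal.Quotient.mk J) := ⟨_, rfl⟩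
  have key : ∀ I : Ideal ((Ω ⊗[K] B) ⧸ J), I ≠ ⊤ →
      I.comap (Ideal.Quotient.mk J) ∈
        HilbFamily K B (Module.finrank Ω (((Ω ⊗[K] B) ⧸ J) ⧸ I)) Ω ∧
      0 < Module.finrank Ω (((Ω ⊗[K] B) ⧸ J) ⧸ I) := by
    intro I hI
    let π : (Ω ⊗[K] B) →ₐ[Ω] (((Ω ⊗[K] B) ⧸ J) ⧸ I) :=
      (Ideal.Quotient.mkₐ Ω I).comp (Ideal.Quotient.mkₐ Ω J)
    have hπ : Function.Surjective π :=
      (Ideal.Quotient.mkₐ_surjective Ω I).comp (Ideal.Quotient.mkₐ_surjective Ω J)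
    have hker : RingHom.ker π = I.comap (Ideal.Quotient.mk J) := by
      ext x
      rw [RingHom.mem_ker, Ideal.mem_comap]
      exact Ideal.Quotient.eq_zero_iff_mem
    have e : ((Ω ⊗[K] B) ⧸ I.comap (Ideal.Quotient.mk J)) ≃ₗ[Ω] (((Ω ⊗[K] B) ⧸ J) ⧸ I) :=
      ((Ideal.quotientEquivAlgOfEq Ω hker.symm).trans
        (Ideal.quotientKerAlgEquivOfSurjective hπ)).toLinearEquiv
    haveI : Nontrivial (((Ω ⊗[K] B) ⧸ J) ⧸ I) := Ideal.Quotient.nontrivial_iff.2 hI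
    haveI : Module.Finite Ω (((Ω ⊗[K] B) ⧸ J) ⧸ I) :=
      Module.Finite.of_surjective (Ideal.Quotient.mkₐ Ω I).toLinearMap
        (Ideal.Quotient.mkₐ_surjective Ω I)
    exact ⟨hf_iff.2 ⟨Module.Finite.equiv e.symm, e.finrank_eq⟩, Module.finrank_pos⟩
  refine ⟨_, _, J₁, J₂, (key I₁ h3).2, (key I₂ h4).2, h5.trans hrk, ?_, ?_, ?_⟩
  · rw [hJ₁]
    exact (key I₁ h3).1
  · rw [hJ₂]
    exact (key I₂ h4).1
  · rw [hJ₁, hJ₂, ← Ideal.comap_inf, h2]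
    exact (Ideal.mk_ker).symm

end Pool.Agent.J4H42.EL
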